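import Pool.Agent.H78.STN.Stmts

/-!
Board `stn`, row BIG.
-/

set_option autoImplicit false

namespace Pool.STN

theorem big_pow (n b : ℕ) (h : 65 + 108 * n ≤ 5 * b) :
    (4808 : ℝ) * 2965950 ^ n ≤ 2 ^ b := by
  have h1 : ((4808 : ℝ) * 2965950 ^ n) ^ 5 ≤ (2 ^ b) ^ 5 := by
    have h2 : (2965950 : ℝ) ^ 5 ≤ 2 ^ 108 := by norm_num
    have h3 : (4808 : ℝ) ^ 5 ≤ 2 ^ 65 := by norm_num
    calc ((4808 : ℝ) * 2965950 ^ n) ^ 5 = 4808 ^ 5 * (2965950 ^ 5) ^ n := by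
          rw [mul_pow, ← pow_mul, ← pow_mul, mul_comm n 5]
      _ ≤ 2 ^ 65 * (2 ^ 108) ^ n := by
          gcongr
      _ = 2 ^ (65 + 108 * n) := by rw [← pow_mul, ← pow_add]
      _ ≤ 2 ^ (5 * b) := pow_le_pow_right₀ (by norm_num) h
      _ = (2 ^ b) ^ 5 := by rw [← pow_mul, mul_comm]
  exact le_of_pow_le_pow_left₀ (by norm_num) (by positivity) h1

theorem big_tail (n : ℕ) (h : 260 ≤ n) : (22680 : ℝ) * (n + 1) * (343 / 400) ^ n ≤ 1 / 4 := by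
  induction n, h using Nat.le_induction with
  | base =>
    have h1 : (343 / 400 : ℝ) ^ 20 ≤ 1 / 20 := by norm_num
    have h2 : (343 / 400 : ℝ) ^ 260 ≤ (1 / 20) ^ 13 := by
      calc (343 / 400 : ℝ) ^ 260 = ((343 / 400 : ℝ) ^ 20) ^ 13 := by rw [← pow_mul]
        _ ≤ (1 / 20) ^ 13 := pow_le_pow_left₀ (by positivity) h1 13
    have h3 : (22680 : ℝ) * ((260 : ℕ) + 1) * (1 / 20) ^ 13 ≤ 1 / 4 := by norm_num
    refine le_trans ?_ h3
    gcongr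
  | succ n hn ih =>
    refine le_trans ?_ ih
    push_cast
    rw [pow_succ]
    have hn' : (260 : ℝ) ≤ n := by exact_mod_cast hn
    have hp : (0 : ℝ) < (343 / 400) ^ n := by positivity
    have h1 : ((n : ℝ) + 1 + 1) * (343 / 400) ≤ n + 1 := by linarith
    calc (22680 : ℝ) * (n + 1 + 1) * ((343 / 400) ^ n * (343 / 400))
        = 22680 * (((n : ℝ) + 1 + 1) * (343 / 400)) * (343 / 400) ^ n := by ring
      _ ≤ 22680 * (n + 1) * (343 / 400) ^ n := by gcongr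

theorem BIG_thm (hDIO : DIOStmt) (hLLW : LLWStmt) : BIGStmt := by
  intro a b ha hb h
  by_contra hcon
  rw [not_lt] at hcon
  obtain ⟨h1, -, h2⟩ := hLLW a b ha hb h
  obtain ⟨n, hn⟩ : ∃ n, n = (a + b) / 60 := ⟨_, rfl⟩
  have hn1 : 260 ≤ n := by omega
  have hn2 : a + b < 60 * (n + 1) := by omega
  have hn3 : 60 * n ≤ a + b := by omega
  have h3 := hDIO ((b : ℤ) - a) b n (Or.inr (by omega)) (by omega)
  have hL : |(((b : ℤ) - a : ℤ) : ℝ) * Real.log (4 / 3) + ((b : ℤ) : ℝ) * Real.log (9 / 8)| ≤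
      2 / 2 ^ b := by
    push_cast
    exact h1
  have h4 := big_pow n b (by omega)
  have h5 : 601 * (2965950 : ℝ) ^ n *
      |(((b : ℤ) - a : ℤ) : ℝ) * Real.log (4 / 3) + ((b : ℤ) : ℝ) * Real.log (9 / 8)| ≤ 1 / 4 := by
    calc 601 * (2965950 : ℝ) ^ n *
          |(((b : ℤ) - a : ℤ) : ℝ) * Real.log (4 / 3) + ((b : ℤ) : ℝ) * Real.log (9 / 8)|
        ≤ 601 * (2965950 : ℝ) ^ n * (2 / 2 ^ b) := by gcongr
      _ = (4808 * 2965950 ^ n) / 4 / 2 ^ b := by ring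
      _ ≤ 2 ^ b / 4 / 2 ^ b := by gcongr
      _ = 1 / 4 := by
          have : (2 : ℝ) ^ b ≠ 0 := by positivity
          field_simp
  have h6 : 18 * |(((b : ℤ) - a : ℤ) : ℝ)| + 9 * |((b : ℤ) : ℝ)| ≤ 1620 * ((n : ℝ) + 1) := by
    have h7 : |(((b : ℤ) - a : ℤ) : ℝ)| ≤ 60 * ((n : ℝ) + 1) := by
      rw [abs_le]
      push_cast
      have x1 : ((a : ℝ) + b) < 60 * (n + 1) := by exact_mod_cast hn2
      have x2 : (0 : ℝ) ≤ a := Nat.cast_nonneg _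
      have x3 : (0 : ℝ) ≤ b := Nat.cast_nonneg _
      constructor <;> linarith
    have h8 : |((b : ℤ) : ℝ)| ≤ 60 * ((n : ℝ) + 1) := by
      rw [abs_le]
      push_cast
      have x1 : ((a : ℝ) + b) < 60 * (n + 1) := by exact_mod_cast hn2
      have x2 : (0 : ℝ) ≤ a := Nat.cast_nonneg _
      have x3 : (0 : ℝ) ≤ b := Nat.cast_nonneg _
      constructor <;> linarith
    linarith
  have h9 := big_tail n hn1
  have h10 : 14 * (18 * |(((b : ℤ) - a : ℤ) : ℝ)| + 9 * |((b : ℤ) : ℝ)|) * (343 / 400 : ℝ) ^ n ≤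
      1 / 4 := by
    calc 14 * (18 * |(((b : ℤ) - a : ℤ) : ℝ)| + 9 * |((b : ℤ) : ℝ)|) * (343 / 400 : ℝ) ^ n
        ≤ 14 * (1620 * ((n : ℝ) + 1)) * (343 / 400 : ℝ) ^ n := by gcongr
      _ = 22680 * (n + 1) * (343 / 400) ^ n := by ring
      _ ≤ 1 / 4 := h9
  linarith

end Pool.STN
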